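import Mathlib
import Pool.Agent.H439.EF1Core

/-!
# MP_0aed39_co — the conflict-violation bound for at most `2 n` goods

For `n` agents with arbitrary nonnegative additive valuations on at most `2 n` goods and every
conflict graph `G = (M, E)` there is an EF1 allocation with at most `|E| / n` violations.
The first `n` goods are handed out by a picking order; every injective assignment of the remaining
goods to the agents then gives an EF1 allocation, and a suitable cyclic shift of one such
assignment has at most `|E| / n` violations.
-/

namespace Pool.Agent.Results.MP_0aed39_co.FewGoods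

open Finset Pool.Agent.H439.EF1Core

/-- **Main result.** Let `n ≥ 1` agents have arbitrary nonnegative additive valuations on a finite
set `M` of at most `2 n` goods, and let `G` be any conflict graph on `M`. Then there is an EF1
allocation with at most `|E| / n` violations. -/
theorem result {n : ℕ} (hn : 0 < n) {M : Type} [Fintype M] [DecidableEq M]
    (v : Fin n → M → ℝ) (hv : ∀ i g, 0 ≤ v i g) (G : SimpleGraph M) [DecidableRel G.Adj]
    (hM : Fintype.card M ≤ 2 * n) :
    ∃ A : M → Fin n, EF1 v A ∧ n * viol G A ≤ G.edgeFinset.card := by
  classical
  have : NeZero n := ⟨hn.ne'⟩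
  -- level and position data
  obtain ⟨lev, pos, hT, inj, full, pref⟩ : ∃ (lev : M → ℕ) (pos : M → Fin n),
      (∀ g, lev g < 2) ∧ (∀ g h, lev g = lev h → pos g = pos h → g = h) ∧
      (∀ h s, s < lev h → ∀ k, ∃ g, lev g = s ∧ pos g = k) ∧
      (∀ g h, lev g = 0 → 0 < lev h → v (pos g) h ≤ v (pos g) g) := by
    by_cases hc : Fintype.card M ≤ n
    · obtain ⟨f⟩ : Nonempty (M ↪ Fin n) := by
        rw [← Fintype.card_fin n] at hc
        exact Function.Embedding.nonempty_of_card_le hc
      exact ⟨fun _ => 0, f, fun _ => by norm_num, fun g h _ hgh => f.injective hgh,
        fun h s hs => absurd hs (by simp), fun g h _ h0 => absurd h0 (by simp)⟩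
    · push Not at hc
      obtain ⟨x, hx1, -, hx3⟩ := serial n (univ : Finset M)
        (by rw [card_univ]; omega) v
      set R : Finset M := univ.filter (fun g => g ∉ Set.range x) with hR
      have hRc : R.card ≤ n := by
        have h1 : (univ.image x).card = n := by
          rw [card_image_of_injective _ hx1, card_univ, Fintype.card_fin]
        have h2 : R = univ \ univ.image x := by
          ext g
          simp [hR]
        rw [h2, card_sdiff_of_subset (subset_univ _), h1, card_univ]
        omega
      obtain ⟨f⟩ : Nonempty (R ↪ Fin n) := by
        apply Function.Embedding.nonempty_of_card_le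
        rw [Fintype.card_coe, Fintype.card_fin]
        exact hRc
      have hmemR : ∀ g, g ∉ Set.range x → g ∈ R := fun g hg => by
        rw [hR, mem_filter]; exact ⟨mem_univ _, hg⟩
      refine ⟨fun g => if g ∈ Set.range x then 0 else 1,
        fun g => if h : g ∈ Set.range x then h.choose else f ⟨g, hmemR g h⟩, ?_, ?_, ?_, ?_⟩
      · intro g
        dsimp only
        split_ifs <;> norm_num
      · intro g h hl hp
        dsimp only at hl hp
        by_cases hg : g ∈ Set.range x
        · have hh : h ∈ Set.range x := by
            by_contra hh
            rw [if_pos hg, if_neg hh] at hl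
            exact absurd hl (by norm_num)
          rw [dif_pos hg, dif_pos hh] at hp
          have h1 := hg.choose_spec
          have h2 := hh.choose_spec
          rw [← h1, ← h2, hp]
        · have hh : h ∉ Set.range x := by
            intro hh
            rw [if_neg hg, if_pos hh] at hl
            exact absurd hl (by norm_num)
          rw [dif_neg hg, dif_neg hh] at hp
          have := f.injective hp
          exact congrArg Subtype.val this
      · intro h s hs k
        dsimp only at hs ⊢
        have hs0 : s = 0 := by
          split_ifs at hs <;> omega
        refine ⟨x k, ?_, ?_⟩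
        · rw [if_pos ⟨k, rfl⟩, hs0]
        · have hk : x k ∈ Set.range x := ⟨k, rfl⟩
          rw [dif_pos hk]
          exact hx1 hk.choose_spec
      · intro g h hg hh
        dsimp only at hg hh ⊢
        have hg' : g ∈ Set.range x := by
          by_contra hg'
          rw [if_neg hg'] at hg
          exact absurd hg (by norm_num)
        have hh' : h ∉ Set.range x := by
          intro hh'
          rw [if_pos hh'] at hh
          exact absurd hh (by norm_num)
        rw [dif_pos hg']
        have h1 := hx3 hg'.choose h (mem_univ _) hh'
        rwa [hg'.choose_spec] at h1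
  obtain ⟨c, hc⟩ := exists_shift G 2 lev hT pos inj
  refine ⟨shiftAlloc 2 lev hT pos c, ?_, hc⟩
  intro i j
  refine dom (v i) (hv i) lev _ (shift_inj 2 lev hT pos inj c) (shift_full 2 lev hT pos full c)
    i ?_ j
  intro g h hg hl
  have h0 : lev g = 0 := by
    have := hT h
    omega
  have hp : pos g = i := by
    rw [← hg]
    unfold shiftAlloc
    rw [if_pos h0, add_zero]
  have := pref g h h0 (by omega)
  rwa [hp] at this

end Pool.Agent.Results.MP_0aed39_co.FewGoods
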