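import Mathlib
import Pool.Agent.H439.EF1Core

/-!
# MP_0aed39_co — the conflict-violation bound when all agents but one share a ranking

If all agents except possibly one rank the goods in a common order (their cardinal values may
differ, and the exceptional agent is arbitrary), then for every conflict graph there is an EF1
allocation with at most `|E| / n` violations. For `n = 2` this is the known case of two arbitrary
agents; it also contains the known case of identical valuations.
-/

namespace Pool.Agent.Results.MP_0aed39_co.OneDeviatingAgent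

open Finset Pool.Agent.H439.EF1Core

/-- The number of violations only depends on the partition into bundles. -/
theorem viol_comp {n : ℕ} {M : Type} [Fintype M] [DecidableEq M] (G : SimpleGraph M)
    [DecidableRel G.Adj] (A : M → Fin n) (σ : Equiv.Perm (Fin n)) :
    viol G (fun g => σ (A g)) = viol G A := by
  unfold viol
  congr 1
  apply filter_congr
  intro e _
  induction e using Sym2.ind with
  | _ g h =>
    simp only [Sym2.map_mk, Sym2.mk_isDiag_iff]
    exact σ.injective.eq_iff

/-- **Main result.** Let `n ≥ 1` agents have nonnegative additive valuations on a finite set `M`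
of goods and let `G` be any conflict graph on `M`. Assume that all agents except possibly one
agent `s` rank the goods in a common order `r`: every agent `i ≠ s` weakly prefers `g` to `h`
whenever `r g < r h`. Then there is an EF1 allocation with at most `|E| / n` violations. -/
theorem result {n : ℕ} (hn : 0 < n) {M : Type} [Fintype M] [DecidableEq M]
    (v : Fin n → M → ℝ) (hv : ∀ i g, 0 ≤ v i g) (G : SimpleGraph M) [DecidableRel G.Adj]
    (s : Fin n) (r : M → ℕ) (hr : Function.Injective r)
    (hpref : ∀ i, i ≠ s → ∀ g h, r g < r h → v i h ≤ v i g) :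
    ∃ A : M → Fin n, EF1 v A ∧ n * viol G A ≤ G.edgeFinset.card := by
  classical
  have : NeZero n := ⟨hn.ne'⟩
  set m := Fintype.card M with hm
  -- the index of a good in the common ranking
  set idx : M → ℕ := fun g => (univ.filter (fun h => r h < r g)).card with hidx
  have hmono : ∀ g h, r g < r h → idx g < idx h := by
    intro g h hgh
    apply card_lt_card
    rw [ssubset_iff_of_subset]
    · refine ⟨g, ?_, ?_⟩
      · rw [mem_filter]; exact ⟨mem_univ _, hgh⟩
      · rw [mem_filter]; exact fun h1 => lt_irrefl _ h1.2
    · intro k hk
      rw [mem_filter] at hk ⊢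
      exact ⟨mem_univ _, lt_trans hk.2 hgh⟩
  have hinjidx : Function.Injective idx := by
    intro g h hgh
    rcases lt_trichotomy (r g) (r h) with h1 | h1 | h1
    · exact absurd hgh (hmono g h h1).ne
    · exact hr h1
    · exact absurd hgh (hmono h g h1).ne'
  have hlt : ∀ g, idx g < m := by
    intro g
    rw [hm, ← card_univ]
    apply card_lt_card
    rw [ssubset_iff_of_subset (subset_univ _)]
    exact ⟨g, mem_univ _, by rw [mem_filter]; exact fun h1 => lt_irrefl _ h1.2⟩
  have hsurj : ∀ k < m, ∃ g, idx g = k := by
    have hbij : Function.Bijective (fun g : M => (⟨idx g, hlt g⟩ : Fin m)) := by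
      rw [Fintype.bijective_iff_injective_and_card]
      refine ⟨fun g h hgh => hinjidx (by simpa using hgh), by rw [Fintype.card_fin]⟩
    intro k hk
    obtain ⟨g, hg⟩ := hbij.2 ⟨k, hk⟩
    exact ⟨g, by simpa using hg⟩
  have hrev : ∀ g h, idx g < idx h → r g < r h := by
    intro g h hgh
    rcases lt_trichotomy (r g) (r h) with h1 | h1 | h1
    · exact h1
    · rw [hr h1] at hgh; exact absurd hgh (lt_irrefl _)
    · exact absurd (hmono h g h1) (by omega)
  set lev : M → ℕ := fun g => idx g / n with hlev
  set pos : M → Fin n := fun g => ⟨idx g % n, Nat.mod_lt _ hn⟩ with hpos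
  have hT : ∀ g, lev g < m + 1 := by
    intro g
    have h1 : idx g / n ≤ idx g := Nat.div_le_self _ _
    have h2 := hlt g
    show idx g / n < m + 1
    omega
  have inj : ∀ g h, lev g = lev h → pos g = pos h → g = h := by
    intro g h h1 h2
    apply hinjidx
    have h3 : idx g % n = idx h % n := by
      have := congrArg Fin.val h2
      simpa [hpos] using this
    have h4 : idx g / n = idx h / n := h1
    rw [← Nat.div_add_mod (idx g) n, ← Nat.div_add_mod (idx h) n, h3, h4]
  have full : ∀ h t, t < lev h → ∀ k, ∃ g, lev g = t ∧ pos g = k := by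
    intro h t ht k
    have h1 : t * n + k.val < m := by
      have h2 : (t + 1) * n ≤ idx h := by
        have h3 : t + 1 ≤ idx h / n := ht
        calc (t + 1) * n ≤ (idx h / n) * n := Nat.mul_le_mul_right n h3
          _ ≤ idx h := Nat.div_mul_le_self _ _
      have h4 := hlt h
      have h5 := k.isLt
      have h6 : (t + 1) * n = t * n + n := by ring
      omega
    obtain ⟨g, hg⟩ := hsurj _ h1
    refine ⟨g, ?_, ?_⟩
    · show idx g / n = t
      rw [hg, mul_comm, Nat.mul_add_div hn, Nat.div_eq_of_lt k.isLt, add_zero]
    · apply Fin.ext
      show idx g % n = k.val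
      rw [hg, mul_comm, Nat.mul_add_mod, Nat.mod_eq_of_lt k.isLt]
  have hlevpref : ∀ i, i ≠ s → ∀ g h, lev g < lev h → v i h ≤ v i g := by
    intro i hi g h hl
    apply hpref i hi
    apply hrev
    by_contra hcon
    push Not at hcon
    have : idx h / n ≤ idx g / n := Nat.div_le_div_right hcon
    have hl' : idx g / n < idx h / n := hl
    omega
  obtain ⟨c, hc⟩ := exists_shift G (m + 1) lev hT pos inj
  set B := shiftAlloc (m + 1) lev hT pos c with hB
  -- agent `s` takes her favourite class
  obtain ⟨k, -, hk⟩ := exists_max_image (univ : Finset (Fin n))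
    (fun b => ∑ h ∈ univ.filter (fun h => B h = b), v s h) ⟨s, mem_univ _⟩
  have hclass : ∀ j g, Equiv.swap s k (B g) = j ↔ B g = Equiv.swap s k j := by
    intro j g
    constructor
    · intro h1
      rw [← h1, Equiv.swap_apply_self]
    · intro h1
      rw [h1, Equiv.swap_apply_self]
  refine ⟨fun g => Equiv.swap s k (B g), ?_, by rw [viol_comp]; exact hc⟩
  intro i j
  simp only [ne_eq, hclass]
  by_cases hi : i = s
  · subst hi
    by_cases hj : ∀ g, ¬ B g = Equiv.swap i k j
    · exact Or.inl hj
    · right
      push Not at hj
      obtain ⟨g, hg⟩ := hj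
      refine ⟨g, hg, ?_⟩
      rw [Equiv.swap_apply_left]
      refine le_trans ?_ (hk (Equiv.swap i k j) (mem_univ _))
      refine sum_le_sum_of_subset_of_nonneg ?_ fun g _ _ => hv i g
      intro h hh
      rw [mem_filter] at hh ⊢
      exact ⟨mem_univ _, hh.2.1⟩
  · exact dom (v i) (hv i) lev B (shift_inj (m + 1) lev hT pos inj c)
      (shift_full (m + 1) lev hT pos full c) (Equiv.swap s k i)
      (fun g h _ hl => hlevpref i hi g h hl) (Equiv.swap s k j)

end Pool.Agent.Results.MP_0aed39_co.OneDeviatingAgent
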